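import Pool.Agent.Helper12.MA.StC

/-!
# Project MA, module MCD: `x ∉ f3`: not two of type TN
-/

set_option autoImplicit false

namespace Pool.Agent.Helper61.MA

open Pool.Agent.Helper12.MA
open Pool.Agent.Helper51.AJ (IsMinor Planar Apex ExMinor Con Tch)
open Pool.Agent.Helper12.NK (rst Kc add cnt Pcy IsFace Cof plus)

variable {V : Type}

private theorem ne4 {a b c d : V} (h : ({a, b, c, d} : Set V).ncard = 4) :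
    b ≠ c ∧ b ≠ d ∧ a ≠ d := by
  have h3 : ∀ x y w : V, ({x, y, w} : Set V).ncard ≤ 3 := fun x y w =>
    (Set.ncard_insert_le _ _).trans
      (Nat.succ_le_succ ((Set.ncard_insert_le _ _).trans (by simp)))
  refine ⟨?_, ?_, ?_⟩
  · rintro rfl
    have e : ({a, b, b, d} : Set V) = {a, b, d} := by
      ext x
      simp only [Set.mem_insert_iff, Set.mem_singleton_iff]
      tauto
    rw [e] at h
    have := h3 a b d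
    omega
  · rintro rfl
    have e : ({a, b, c, b} : Set V) = {a, c, b} := by
      ext x
      simp only [Set.mem_insert_iff, Set.mem_singleton_iff]
      tauto
    rw [e] at h
    have := h3 a c b
    omega
  · rintro rfl
    have e : ({a, b, c, a} : Set V) = {a, b, c} := by
      ext x
      simp only [Set.mem_insert_iff, Set.mem_singleton_iff]
      tauto
    rw [e] at h
    have := h3 a b c
    omega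

/-- elementary facts on a cut -/
private theorem cutf {G : SimpleGraph V} {z v p q r r' : V} {f1 f3 : Set V} {σ b : V}
    {X Y : Set V} (h : Cut G z v p q r r' f1 f3 σ b X Y) :
    z ≠ σ ∧ z ≠ b ∧ (z ∉ X ∧ z ∉ Y) ∧ (v ∉ X ∧ v ∉ Y) ∧ (σ ∉ X ∧ σ ∉ Y) ∧ (b ∉ X ∧ b ∉ Y) ∧
    (∀ t, t ∈ X → t ∉ Y) ∧ (∀ t, t ≠ v → t ≠ z → t ≠ σ → t ≠ b → t ∈ X ∨ t ∈ Y) := by
  have h4 := ne4 h.sep.card
  have hc : ∀ t, (t ∈ X ∨ t ∈ Y) ↔ ¬ (t = v ∨ t = z ∨ t = σ ∨ t = b) := by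
    intro t
    have e := h.sep.cov
    have e2 : t ∈ X ∪ Y ↔ t ∈ ({v, z, σ, b} : Set V)ᶜ := by rw [e]
    simpa only [Set.mem_union, Set.mem_compl_iff, Set.mem_insert_iff, Set.mem_singleton_iff]
      using e2
  have hz : ¬ (z ∈ X ∨ z ∈ Y) := by
    rw [hc z, not_not]
    exact Or.inr (Or.inl rfl)
  have hv : ¬ (v ∈ X ∨ v ∈ Y) := by
    rw [hc v, not_not]
    exact Or.inl rfl
  have hs : ¬ (σ ∈ X ∨ σ ∈ Y) := by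
    rw [hc σ, not_not]
    exact Or.inr (Or.inr (Or.inl rfl))
  have hb : ¬ (b ∈ X ∨ b ∈ Y) := by
    rw [hc b, not_not]
    exact Or.inr (Or.inr (Or.inr rfl))
  refine ⟨h4.1, h4.2.1, not_or.1 hz, not_or.1 hv, not_or.1 hs, not_or.1 hb, ?_, ?_⟩
  · intro t h1 h2
    exact Set.disjoint_left.1 h.sep.dis h1 h2
  · intro t h1 h2 h3 h5
    rw [hc]
    rintro (h6 | h6 | h6 | h6)
    · exact h1 h6
    · exact h2 h6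
    · exact h3 h6
    · exact h5 h6

private theorem core [Finite V] (hFNB : StFNB) (hBAS : StBAS) (hPVB : StPVB) (hCUA : StCUA)
    (hCUM : StCUM) (hUNX : StUNX) (hORD : StORD) (hGAA : StGAA) (hGAB : StGAB)
    {G : SimpleGraph V} {z v p q r r' : V} {f1 f2 f3 f4 : Set V}
    (cf : Cfg G z v p q r r' f1 f2 f3 f4) {x y : V} (xp : x ≠ p) (vx : G.Adj v x)
    (x1 : x ∉ f1) (x2 : x ∉ f2) (x3 : x ∉ f3) (x4 : x ∉ f4) {Φ : Set V}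
    (tΦ : TH G z v y Φ) (iΦ : IsFace (dl G p q) {v}ᶜ Φ) (xΦ : x ∈ Φ)
    {w₁ w₂ σ b σ' b' : V} {X Y X' Y' Γ Γ' : Set V} (a₁ : G.Adj v w₁) (z₁ : w₁ ≠ z)
    (n₁ : w₁ ≠ x) (m₁ : w₁ ≠ y) (a₂ : G.Adj v w₂) (z₂ : w₂ ≠ z) (n₂ : w₂ ≠ x) (m₂ : w₂ ≠ y)
    (hne : w₁ ≠ w₂)
    (C : Cut G z v p q r r' f1 f3 σ b X Y) (T : TN G z v p q r r' w₁ b Γ)
    (C' : Cut G z v p q r r' f1 f3 σ' b' X' Y') (T' : TN G z v p q r r' w₂ b' Γ')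
    (xX : x ∈ X) (xX' : x ∈ X') (hb : b ∈ X') : False := by
  obtain ⟨zσ, zb, ⟨zX, zY⟩, ⟨vX, vY⟩, ⟨σX, σY⟩, ⟨bX, bY⟩, hd, hc⟩ := cutf C
  obtain ⟨zσ', zb', ⟨zX', zY'⟩, ⟨vX', vY'⟩, ⟨σX', σY'⟩, ⟨bX', bY'⟩, hd', hc'⟩ := cutf C'
  obtain ⟨N, b₁, w₁Γ, hΓ⟩ := T
  obtain ⟨N', b₂, w₂Γ', hΓ'⟩ := T'
  obtain ⟨g1, g2, g3, -, -, -⟩ := hGAA V G z v p q r r' f1 f2 f3 f4 cf σ b X Y Γ C N
  obtain ⟨g1', g2', g3', -, -, -⟩ := hGAA V G z v p q r r' f1 f2 f3 f4 cf σ' b' X' Y' Γ' C' N'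
  have gb := hGAB V G z v p q r r' f1 f2 f3 f4 cf σ b X Y Γ C N
  have gb' := hGAB V G z v p q r r' f1 f2 f3 f4 cf σ' b' X' Y' Γ' C' N'
  have cu := (hCUA V G z v p q r r' f1 f2 f3 f4 cf σ b X Y C).1
  have o := hORD V G z v p q r r' f1 f2 f3 f4 cf σ b σ' b' X Y X' Y' C C'
  have b'Y : b' ∈ Y := o.1 hb
  have xb : x ≠ b := fun h => bX (h ▸ xX)
  have xb' : x ≠ b' := fun h => bX' (h ▸ xX')
  have w₁v : w₁ ≠ v := a₁.ne'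
  have w₂v : w₂ ≠ v := a₂.ne'
  -- `X` and `Y'` are disjoint
  have d1 : ∀ t, t ∈ X → t ∉ Y' := fun t h1 h2 =>
    hd' b hb (hUNX V G z v p q r r' f1 f2 f3 f4 cf σ b σ' b' X Y X' Y' C C' ⟨t, h1, h2⟩).2.1
  have xΓ : x ∈ Γ := hΓ ⟨vx, by
    simp only [Set.mem_insert_iff, Set.mem_singleton_iff, not_or]
    exact ⟨Ne.symm n₁, xb⟩⟩
  have xΓ' : x ∈ Γ' := hΓ' ⟨vx, by
    simp only [Set.mem_insert_iff, Set.mem_singleton_iff, not_or]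
    exact ⟨Ne.symm n₂, xb'⟩⟩
  obtain ⟨Ω, iΩ, b'Ω, xΩ⟩ := (gb' x xX').1 xΓ'
  have zΩ : z ∉ Ω := by
    intro h
    rcases cf.all Ω iΩ h with h1 | h1 | h1 | h1
    · exact x1 (h1 ▸ xΩ)
    · exact x2 (h1 ▸ xΩ)
    · exact x3 (h1 ▸ xΩ)
    · exact x4 (h1 ▸ xΩ)
  obtain ⟨σΩ, bΩ⟩ := cu Ω iΩ zΩ ⟨x, xΩ, xX⟩ ⟨b', b'Ω, b'Y⟩
  have σp : σ ≠ p := fun h => σX (h ▸ C.sep.xL)
  have σr : σ ≠ r := fun h => σY (h ▸ C.rY)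
  have b'q : b' ≠ q := fun h => bY' (h ▸ C'.sep.yR)
  have b's : b' ≠ r' := fun h => bX' (h ▸ C'.sX)
  obtain ⟨X2, Y2, C2⟩ := hCUM V G z v p q r r' f1 f2 f3 f4 cf σ C.sf b' C'.bf (Ne.symm zσ) σp σr
    (Ne.symm zb') b'q b's ⟨Ω, iΩ, σΩ, b'Ω⟩
  obtain ⟨-, -, ⟨zX2, zY2⟩, ⟨vX2, vY2⟩, ⟨σX2, σY2⟩, ⟨bX2, bY2⟩, hd2, hc2⟩ := cutf C2
  have d2 : ∀ t, t ∈ X2 → t ∉ Y := fun t h1 h2 =>
    σY (hUNX V G z v p q r r' f1 f2 f3 f4 cf σ b' σ b X2 Y2 X Y C2 C ⟨t, h1, h2⟩).1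
  have d3 : ∀ t, t ∈ X' → t ∉ Y2 := fun t h1 h2 =>
    bY2 (hUNX V G z v p q r r' f1 f2 f3 f4 cf σ' b' σ b' X' Y' X2 Y2 C' C2 ⟨t, h1, h2⟩).2.1
  have d4 : ∀ t, t ∈ X' → t ∉ Y := by
    intro t h1 h2
    rcases hc2 t (fun h => vY (h ▸ h2)) (fun h => zY (h ▸ h2)) (fun h => σY (h ▸ h2))
      (fun h => bX' (h ▸ h1)) with h3 | h3
    · exact d2 t h3 h2
    · exact d3 t h1 h3
  by_cases hw : w₁ = b'
  · -- case 1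
    have pn : Pn (dl G p q) {v}ᶜ := ⟨(hBAS V G cf.bh).2.2.2.2.1 v p q, cf.ds.pl⟩
    have w₁Φ : w₁ ∈ Φ := tΦ.2 ⟨a₁, by
      simp only [Set.mem_insert_iff, Set.mem_singleton_iff, not_or]
      exact ⟨z₁, m₁⟩⟩
    have w₂Φ : w₂ ∈ Φ := tΦ.2 ⟨a₂, by
      simp only [Set.mem_insert_iff, Set.mem_singleton_iff, not_or]
      exact ⟨z₂, m₂⟩⟩
    have nadj : ¬ (dl G p q).Adj x b' := by
      intro h
      exact xp (C.sep.only x xX b' b'Y h.1).1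
    have eΦ : Φ = Ω := (hFNB V (dl G p q) {v}ᶜ pn).2.2.2.1 Φ Ω iΦ iΩ x b' xΦ (hw ▸ w₁Φ) xΩ b'Ω
      xb' nadj
    have w₂Ω : w₂ ∈ Ω := eΦ ▸ w₂Φ
    have k1 : w₂ ∉ X' := fun h => w₂Γ' ((gb' w₂ h).2 ⟨Ω, iΩ, b'Ω, w₂Ω⟩)
    have k2 : w₂ ≠ σ' := fun h => w₂Γ' (h ▸ g1')
    have k3 : w₂ ∈ Y' := (hc' w₂ w₂v z₂ k2 (Ne.symm b₂)).resolve_left k1
    have k4 : w₂ ≠ b := fun h => k1 (h ▸ hb)
    have k5 : w₂ ∈ Γ := by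
      exact hΓ ⟨a₂, by
        simp only [Set.mem_insert_iff, Set.mem_singleton_iff, not_or]
        exact ⟨Ne.symm hne, k4⟩⟩
    have k6 : w₂ ∉ X := fun h => d1 w₂ h k3
    have k7 : w₂ ∈ f1 := by
      by_cases h : w₂ = σ
      · exact h ▸ C.sf
      · have h1 : w₂ ∈ Y := (hc w₂ w₂v z₂ h k4).resolve_left k6
        have h2 : w₂ ∈ Γ ∩ Y := ⟨k5, h1⟩
        rw [g2] at h2
        exact h2.1
    have k8 : w₂ ≠ r := fun h => w₂Γ' (h ▸ N'.r)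
    have k9 : w₂ ≠ p := fun h => (hPVB V G z v p q r r' f1 f2 f3 f4 cf).1 (h ▸ a₂)
    obtain ⟨X3, Y3, C3⟩ := hCUM V G z v p q r r' f1 f2 f3 f4 cf w₂ k7 b' C'.bf z₂ k9 k8
      (Ne.symm zb') b'q b's ⟨Ω, iΩ, w₂Ω, b'Ω⟩
    exact w₂Γ' (hGAA V G z v p q r r' f1 f2 f3 f4 cf w₂ b' X3 Y3 Γ' C3 N').1
  · -- case 2
    have w₁Γ' : w₁ ∈ Γ' := by
      exact hΓ' ⟨a₁, by
        simp only [Set.mem_insert_iff, Set.mem_singleton_iff, not_or]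
        exact ⟨hne, hw⟩⟩
    have w₁σ : w₁ ≠ σ := fun h => w₁Γ (h ▸ g1)
    rcases hc w₁ w₁v z₁ w₁σ (Ne.symm b₁) with h | h
    · -- `w₁ ∈ X`
      have k1 : w₁ ∉ Y' := d1 w₁ h
      have k2 : w₁ ≠ σ' := by
        intro e
        obtain ⟨X1, Y1, C1, -⟩ := o.2.2 hb (e ▸ h)
        have := (hGAA V G z v p q r r' f1 f2 f3 f4 cf σ' b X1 Y1 Γ C1 N).1
        exact w₁Γ (e ▸ this)
      have k3 : w₁ ∈ X' := (hc' w₁ w₁v z₁ k2 hw).resolve_right k1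
      obtain ⟨Ω', iΩ', b'Ω', w₁Ω'⟩ := (gb' w₁ k3).1 w₁Γ'
      by_cases hz : z ∈ Ω'
      · have e3 : Ω' = f3 := by
          rcases cf.all Ω' iΩ' hz with h1 | h1 | h1 | h1
          · exfalso
            have h2 : b' ∈ f1 ∩ f3 := ⟨h1 ▸ b'Ω', C'.bf⟩
            rw [cf.x13] at h2
            exact zb' h2.symm
          · exfalso
            have h2 : b' ∈ f2 ∩ f3 := ⟨h1 ▸ b'Ω', C'.bf⟩
            rw [cf.x23] at h2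
            rcases h2 with h2 | h2
            · exact zb' h2.symm
            · exact b'q h2
          · exact h1
          · exfalso
            have h2 : b' ∈ f3 ∩ f4 := ⟨C'.bf, h1 ▸ b'Ω'⟩
            rw [cf.x34] at h2
            rcases h2 with h2 | h2
            · exact zb' h2.symm
            · exact b's h2
        exact w₁Γ (g3 ⟨e3 ▸ w₁Ω', h⟩)
      · obtain ⟨-, bΩ'⟩ := cu Ω' iΩ' hz ⟨w₁, w₁Ω', h⟩ ⟨b', b'Ω', b'Y⟩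
        exact w₁Γ ((gb w₁ h).2 ⟨Ω', iΩ', bΩ', w₁Ω'⟩)
    · -- `w₁ ∈ Y`
      have k1 : w₁ ∉ f1 := fun h1 => w₁Γ (g2.symm ▸ (⟨h1, h⟩ : w₁ ∈ f1 ∩ Y) : w₁ ∈ Γ ∩ Y).1
      have k2 : w₁ ∉ Y' := fun h1 => by
        have h2 : w₁ ∈ Γ' ∩ Y' := ⟨w₁Γ', h1⟩
        rw [g2'] at h2
        exact k1 h2.1
      have k3 : w₁ ≠ σ' := fun h1 => k1 (h1 ▸ C'.sf)
      have k4 : w₁ ∈ X' := (hc' w₁ w₁v z₁ k3 hw).resolve_right k2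
      exact d4 w₁ k4 h

/-- MCD. -/
theorem hMCD (hFNB : StFNB) (hBAS : StBAS) (hSYM : StSYM) (hPVB : StPVB) (hCUA : StCUA)
    (hCUM : StCUM) (hUNX : StUNX) (hORD : StORD) (hGAA : StGAA) (hGAB : StGAB) (hMCC : StMCC) :
    StMCD := by
  intro V _ G z v p q r r' f1 f2 f3 f4 X₀ Y₀ x y hE x3 w₁ w₂ σ b σ' b' X Y X' Y' Γ Γ' a₁ z₁ n₁ m₁
    a₂ z₂ n₂ m₂ hne C T C' T'
  obtain ⟨-, x1, x2, x4, ⟨Φ, tΦ, iΦ, -, xΦ⟩, -⟩ :=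
    hMCC V G z v p q r r' f1 f2 f3 f4 X₀ Y₀ x y hE x3
  have cf := hE.cf
  have xX : x ∈ X := (hE.mX σ b X Y C).1 hE.xX
  have xX' : x ∈ X' := (hE.mX σ' b' X' Y' C').1 hE.xX
  obtain ⟨zσ, zb, -, -, -, ⟨bX, bY⟩, hd, hc⟩ := cutf C
  obtain ⟨zσ', zb', -, -, ⟨σX', σY'⟩, ⟨bX', bY'⟩, hd', hc'⟩ := cutf C'
  have hbb : b ≠ b' := by
    rintro rfl
    obtain ⟨N, b₁, w₁Γ, hΓ⟩ := T
    obtain ⟨N', b₂, w₂Γ', hΓ'⟩ := T'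
    have pn : Pn G {b, v}ᶜ := ⟨(hBAS V G cf.bh).2.1 b v, N.pl⟩
    have e : Γ = Γ' := (hFNB V G {b, v}ᶜ pn).2.2.2.2.1 Γ Γ' N.fa N'.fa z r r' N.z N.r N.s
      N'.z N'.r N'.s
      (G.ne_of_adj ((cf.ds.nb r).2 (Or.inr (Or.inr (Or.inr (Or.inl rfl)))))) cf.ds.ne.2.2.2.2.2.2.2.2.2
      (G.ne_of_adj ((cf.ds.nb r').2 (Or.inr (Or.inr (Or.inr (Or.inr rfl))))))
    have : w₁ ∈ Γ' := hΓ' ⟨a₁, by
      simp only [Set.mem_insert_iff, Set.mem_singleton_iff, not_or]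
      exact ⟨hne, Ne.symm b₁⟩⟩
    exact w₁Γ (e ▸ this)
  have b3 : b ∈ X' ∨ b ∈ Y' := by
    refine hc' b ?_ (Ne.symm zb) ?_ hbb
    · exact Ne.symm (ne4 C.sep.card).2.2
    · intro h
      have h2 : σ' ∈ f1 ∩ f3 := ⟨C'.sf, h ▸ C.bf⟩
      rw [cf.x13] at h2
      exact zσ' h2.symm
  rcases b3 with hb | hb
  · exact core hFNB hBAS hPVB hCUA hCUM hUNX hORD hGAA hGAB cf hE.xp hE.vx x1 x2 x3 x4 tΦ iΦ xΦ
      a₁ z₁ n₁ m₁ a₂ z₂ n₂ m₂ hne C T C' T' xX xX' hb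
  · obtain ⟨cf2, -, -, hsc⟩ := hSYM V G z v p q r r' f1 f2 f3 f4 cf
    have hb' : b' ∈ X := (hORD V G z v q p r' r f3 f4 f1 f2 cf2 b σ b' σ' Y X Y' X'
      (hsc σ b X Y C) (hsc σ' b' X' Y' C')).2.1 hb
    exact core hFNB hBAS hPVB hCUA hCUM hUNX hORD hGAA hGAB cf hE.xp hE.vx x1 x2 x3 x4 tΦ iΦ xΦ
      a₂ z₂ n₂ m₂ a₁ z₁ n₁ m₁ (Ne.symm hne) C' T' C T xX' xX hb'

end Pool.Agent.Helper61.MA
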